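import Mathlib

/-!
Univariate part: a polynomial curve `(A, B, E)` and the lines `A + a B + a^2 E`.
-/

open Polynomial

namespace Pool.Agent.MP_4be736_ag.H94

/-- pull-back of the line with parameter `a` -/
noncomputable def lin (A B E : ℂ[X]) (a : ℂ) : ℂ[X] := A + C a * B + C (a ^ 2) * E

theorem count {ι : Type*} [DecidableEq ι] (J : Finset ι) (P : ι → ℂ[X]) (e k : ℕ) (R : ℂ[X])
    (hR : R ≠ 0) (hP : ∀ j ∈ J, P j ≠ 0) (hdeg : ∀ j ∈ J, (P j).natDegree = e)
    (hdvd : ∀ j ∈ J, ∀ s : ℂ, ∀ t : ℕ, (X - C s) ^ t ∣ P j → (X - C s) ^ (t - 1) ∣ R)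
    (hk : ∀ s : ℂ, ∀ J' ⊆ J, (∀ j ∈ J', (P j).eval s = 0) → J'.card ≤ k) :
    ∃ S : Finset ℂ, (∀ s ∈ S, ∃ j ∈ J, (P j).rootMultiplicity s = 1) ∧
      J.card * e ≤ k * S.card + 2 * k * R.natDegree := by
  classical
  set T : Finset ℂ := J.biUnion (fun j => (P j).roots.toFinset) with hT
  set S : Finset ℂ := T.filter (fun s => ∃ j ∈ J, (P j).rootMultiplicity s = 1) with hS
  refine ⟨S, fun s hs => (Finset.mem_filter.1 hs).2, ?_⟩
  have h1 : ∀ j ∈ J, e = ∑ s ∈ T, (P j).rootMultiplicity s := by
    intro j hj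
    have hc : (P j).roots.card = e := by
      rw [← hdeg j hj]; exact IsAlgClosed.card_roots_eq_natDegree
    rw [← hc, ← Multiset.sum_count_eq_card (s := T)]
    · exact Finset.sum_congr rfl fun s _ => count_roots _
    · intro s hs
      exact Finset.mem_biUnion.2 ⟨j, hj, Multiset.mem_toFinset.2 hs⟩
  have h2 : ∑ s ∈ T, R.rootMultiplicity s ≤ R.natDegree := by
    calc ∑ s ∈ T, R.rootMultiplicity s = ∑ s ∈ T, R.roots.count s :=
          Finset.sum_congr rfl fun s _ => (count_roots _).symm
      _ = (R.roots.filter (· ∈ T)).card := by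
          rw [← Multiset.sum_count_eq_card (s := T)]
          · refine Finset.sum_congr rfl fun s hs => ?_
            rw [Multiset.count_filter_of_pos hs]
          · intro s hs; exact (Multiset.mem_filter.1 hs).2
      _ ≤ R.roots.card := Multiset.card_le_card (Multiset.filter_le _ _)
      _ ≤ R.natDegree := card_roots' R
  have h3 : ∀ s ∈ T, ∑ j ∈ J, (P j).rootMultiplicity s ≤
      k * ((if s ∈ S then 1 else 0) + 2 * R.rootMultiplicity s) := by
    intro s hs
    have hb : ∀ j ∈ J, (P j).rootMultiplicity s ≤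
        (if s ∈ S then 1 else 0) + 2 * R.rootMultiplicity s := by
      intro j hj
      have h := (le_rootMultiplicity_iff hR).2
        (hdvd j hj s _ (pow_rootMultiplicity_dvd (P j) s))
      by_cases h1 : (P j).rootMultiplicity s = 1
      · have : s ∈ S := Finset.mem_filter.2 ⟨hs, j, hj, h1⟩
        rw [if_pos this]; omega
      · omega
    rw [← Finset.sum_filter_add_sum_filter_not J (fun j => (P j).eval s = 0)]
    have hz : ∑ j ∈ J.filter (fun j => ¬ (P j).eval s = 0), (P j).rootMultiplicity s = 0 := by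
      refine Finset.sum_eq_zero fun j hj => ?_
      exact rootMultiplicity_eq_zero (Finset.mem_filter.1 hj).2
    rw [hz, add_zero]
    refine (Finset.sum_le_card_nsmul _ _ _
      (fun j hj => hb j (Finset.mem_filter.1 hj).1)).trans ?_
    rw [smul_eq_mul]
    exact Nat.mul_le_mul_right _
      (hk s _ (Finset.filter_subset _ _) fun j hj => (Finset.mem_filter.1 hj).2)
  have h4 : ∑ s ∈ T, (if s ∈ S then 1 else 0) = S.card := by
    rw [Finset.sum_boole, Finset.filter_mem_eq_inter,
      Finset.inter_eq_right.2 (Finset.filter_subset _ _)]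
    rfl
  calc J.card * e = ∑ j ∈ J, e := by simp
    _ = ∑ j ∈ J, ∑ s ∈ T, (P j).rootMultiplicity s := Finset.sum_congr rfl h1
    _ = ∑ s ∈ T, ∑ j ∈ J, (P j).rootMultiplicity s := Finset.sum_comm
    _ ≤ ∑ s ∈ T, k * ((if s ∈ S then 1 else 0) + 2 * R.rootMultiplicity s) :=
        Finset.sum_le_sum h3
    _ = k * S.card + 2 * k * ∑ s ∈ T, R.rootMultiplicity s := by
        rw [← Finset.mul_sum, Finset.sum_add_distrib, h4, ← Finset.mul_sum]; ring
    _ ≤ k * S.card + 2 * k * R.natDegree := by gcongr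

theorem prop_of_wronskian {u v : ℂ[X]} (hu : u ≠ 0)
    (h : u * derivative v = derivative u * v) : ∃ l : ℂ, v = C l * u := by
  obtain ⟨s, hs⟩ : ∃ s : ℂ, u.eval s ≠ 0 := by
    by_contra hcon
    push Not at hcon
    exact hu (Polynomial.funext (by simpa using hcon))
  refine ⟨v.eval s / u.eval s, ?_⟩
  by_contra hne
  set w : ℂ[X] := v - C (v.eval s / u.eval s) * u with hw
  have hw0 : w ≠ 0 := sub_ne_zero.2 hne
  have hroot : w.IsRoot s := by
    simp only [hw, IsRoot, eval_sub, eval_mul, eval_C]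
    field_simp
    ring
  have hw1 : u * derivative w = derivative u * w := by
    simp only [hw, derivative_sub, derivative_mul, derivative_C, zero_mul, zero_add]
    linear_combination h
  have hpos : 0 < w.rootMultiplicity s := (rootMultiplicity_pos hw0).2 hroot
  have hd0 : derivative w ≠ 0 := by
    intro h0
    have := eq_C_of_derivative_eq_zero h0
    rw [this] at hroot hw0
    simp only [IsRoot, eval_C] at hroot
    simp [hroot] at hw0
  have hdvd : (X - C s) ^ w.rootMultiplicity s ∣ u * derivative w := by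
    rw [hw1]; exact Dvd.dvd.mul_left (pow_rootMultiplicity_dvd w s) _
  have hcop : IsCoprime ((X - C s) ^ w.rootMultiplicity s) u := by
    apply IsCoprime.pow_left
    rw [(irreducible_X_sub_C s).coprime_iff_not_dvd, dvd_iff_isRoot]
    exact hs
  have h2 := (le_rootMultiplicity_iff hd0).2 (hcop.dvd_of_dvd_mul_left hdvd)
  rw [derivative_rootMultiplicity_of_root hroot] at h2
  omega

theorem two_roots (J : Finset ℂ) (α β γ : ℂ) (h : ¬ (α = 0 ∧ β = 0 ∧ γ = 0))
    (hJ : ∀ a ∈ J, α + a * β + a ^ 2 * γ = 0) : J.card ≤ 2 := by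
  by_contra hc
  push Not at hc
  obtain ⟨a, ha, b, hb, c, hc, hab, hac, hbc⟩ := Finset.two_lt_card.1 hc
  have h1 := hJ a ha
  have h2 := hJ b hb
  have h3 := hJ c hc
  have e1 : β + (a + b) * γ = 0 := by
    have : (a - b) * (β + (a + b) * γ) = 0 := by linear_combination h1 - h2
    exact (mul_eq_zero.1 this).resolve_left (sub_ne_zero.2 hab)
  have e2 : β + (a + c) * γ = 0 := by
    have : (a - c) * (β + (a + c) * γ) = 0 := by linear_combination h1 - h3
    exact (mul_eq_zero.1 this).resolve_left (sub_ne_zero.2 hac)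
  have e3 : γ = 0 := by
    have : (b - c) * γ = 0 := by linear_combination e1 - e2
    exact (mul_eq_zero.1 this).resolve_left (sub_ne_zero.2 hbc)
  have e4 : β = 0 := by rw [e3] at e1; simpa using e1
  have e5 : α = 0 := by rw [e3, e4] at h1; simpa using h1
  exact h ⟨e5, e4, e3⟩

theorem deg_wr {u v : ℂ[X]} {e : ℕ} (he : 1 ≤ e) (hu : u.natDegree ≤ e) (hv : v.natDegree ≤ e) :
    (u * derivative v - derivative u * v).natDegree ≤ 2 * e - 1 := by
  have h1 : (derivative u).natDegree ≤ e - 1 :=
    (natDegree_derivative_le u).trans (Nat.sub_le_sub_right hu 1)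
  have h2 : (derivative v).natDegree ≤ e - 1 :=
    (natDegree_derivative_le v).trans (Nat.sub_le_sub_right hv 1)
  refine (natDegree_sub_le _ _).trans (max_le ?_ ?_)
  · refine natDegree_mul_le.trans ?_; omega
  · refine natDegree_mul_le.trans ?_; omega

theorem der_lin (A B E : ℂ[X]) (a : ℂ) :
    derivative (lin A B E a) = derivative A + C a * derivative B + C (a ^ 2) * derivative E := by
  simp [lin, derivative_mul]

theorem main (A B E : ℂ[X]) (e : ℕ) (he : 1 ≤ e)
    (hA : A.natDegree ≤ e) (hB : B.natDegree ≤ e) (hE : E.natDegree ≤ e)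
    (hco : ∀ s : ℂ, ¬ (A.eval s = 0 ∧ B.eval s = 0 ∧ E.eval s = 0))
    (hinf : ¬ (A.coeff e = 0 ∧ B.coeff e = 0 ∧ E.coeff e = 0))
    (hΔ : B ^ 2 - 4 * A * E ≠ 0)
    (J : Finset ℂ) (hJ : J.card = 50) (hP : ∀ a ∈ J, lin A B E a ≠ 0)
    (hline : ∀ l0 l1 l2 : ℂ, ¬ (l0 = 0 ∧ l1 = 0 ∧ l2 = 0) →
      C l0 * A + C l1 * B + C l2 * E = 0 → ∀ a ∈ J, ∀ b ∈ J, ∀ c ∈ J, ∀ d ∈ J,
      l0 * (a * b) - l1 * (a + b) + l2 = 0 → l0 * (c * d) - l1 * (c + d) + l2 = 0 →
      a + b = c + d ∧ a * b = c * d) :
    ∃ S : Finset ℂ, 34 ≤ S.card ∧ ∀ s ∈ S, ∃ a ∈ J, (lin A B E a).rootMultiplicity s = 1 := by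
  classical
  -- lines not through the point at infinity
  set J1 : Finset ℂ := J.filter (fun a => A.coeff e + a * B.coeff e + a ^ 2 * E.coeff e ≠ 0)
    with hJ1
  have hJ1c : 48 ≤ J1.card := by
    have h1 := Finset.card_filter_add_card_filter_not (s := J)
      (fun a => A.coeff e + a * B.coeff e + a ^ 2 * E.coeff e ≠ 0)
    have h2 : (J.filter (fun a => ¬ A.coeff e + a * B.coeff e + a ^ 2 * E.coeff e ≠ 0)).card ≤ 2 :=
      two_roots _ _ _ _ hinf fun a ha => not_not.1 (Finset.mem_filter.1 ha).2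
    rw [← hJ1] at h1
    omega
  have hJ1J : J1 ⊆ J := Finset.filter_subset _ _
  have hdeg : ∀ a ∈ J1, (lin A B E a).natDegree = e := by
    intro a ha
    apply natDegree_eq_of_le_of_coeff_ne_zero
    · unfold lin
      refine (natDegree_add_le _ _).trans (max_le ((natDegree_add_le _ _).trans (max_le hA ?_)) ?_)
      · exact (natDegree_C_mul_le _ _).trans hB
      · exact (natDegree_C_mul_le _ _).trans hE
    · have := (Finset.mem_filter.1 ha).2
      simpa [lin, coeff_C_mul, -map_pow] using this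
  set g0 : ℂ[X] := B * derivative E - derivative B * E with hg0
  set g1 : ℂ[X] := E * derivative A - derivative E * A with hg1
  set g2 : ℂ[X] := A * derivative B - derivative A * B with hg2
  have d0 : g0.natDegree ≤ 2 * e - 1 := deg_wr he hB hE
  have d1 : g1.natDegree ≤ 2 * e - 1 := deg_wr he hE hA
  have d2 : g2.natDegree ≤ 2 * e - 1 := deg_wr he hA hB
  have c1 : ∀ a : ℂ, C (a ^ 2) * g0 - g2 =
      B * derivative (lin A B E a) - derivative B * lin A B E a := by
    intro a; rw [der_lin]; simp only [lin, hg0, hg2]; ring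
  have c2 : ∀ a : ℂ, g1 - C a * g0 =
      E * derivative (lin A B E a) - derivative E * lin A B E a := by
    intro a; rw [der_lin]; simp only [lin, hg0, hg1]; ring
  have dv : ∀ (a s : ℂ) (t : ℕ) (u : ℂ[X]), (X - C s) ^ t ∣ lin A B E a →
      (X - C s) ^ (t - 1) ∣ u * derivative (lin A B E a) - derivative u * lin A B E a := by
    intro a s t u h
    refine dvd_sub (Dvd.dvd.mul_left (pow_sub_one_dvd_derivative_of_pow_dvd h) _) ?_
    exact Dvd.dvd.mul_left ((pow_dvd_pow _ (Nat.sub_le _ _)).trans h) _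
  have ev : ∀ a s : ℂ, (lin A B E a).eval s = A.eval s + a * B.eval s + a ^ 2 * E.eval s := by
    intro a s; simp [lin]
  set W : ℂ[X] := g0 * derivative (derivative A) + g1 * derivative (derivative B) +
    g2 * derivative (derivative E) with hW
  have dg0 : derivative g0 = B * derivative (derivative E) - derivative (derivative B) * E := by
    simp only [hg0, derivative_sub, derivative_mul]; ring
  have dg1 : derivative g1 = E * derivative (derivative A) - derivative (derivative E) * A := by
    simp only [hg1, derivative_sub, derivative_mul]; ring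
  have dg2 : derivative g2 = A * derivative (derivative B) - derivative (derivative A) * B := by
    simp only [hg2, derivative_sub, derivative_mul]; ring
  have h0 : g1 * derivative g2 - derivative g1 * g2 = W * A := by
    rw [dg1, dg2]; simp only [hW, hg0, hg1, hg2]; ring
  have h1 : g2 * derivative g0 - derivative g2 * g0 = W * B := by
    rw [dg0, dg2]; simp only [hW, hg0, hg1, hg2]; ring
  have h2 : g0 * derivative g1 - derivative g0 * g1 = W * E := by
    rw [dg0, dg1]; simp only [hW, hg0, hg1, hg2]; ring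
  by_cases hW0 : W = 0
  · -- the curve is a line
    rw [hW0, zero_mul, sub_eq_zero] at h0 h1 h2
    have hg : ¬ (g0 = 0 ∧ g1 = 0 ∧ g2 = 0) := by
      rintro ⟨z0, z1, z2⟩
      rw [hg0, sub_eq_zero] at z0
      rw [hg1, sub_eq_zero] at z1
      rw [hg2, sub_eq_zero] at z2
      have key : ∀ u : ℂ[X], u ≠ 0 → (∃ l : ℂ, A = C l * u) → (∃ l : ℂ, B = C l * u) →
          (∃ l : ℂ, E = C l * u) → False := by
        rintro u hu ⟨l0, e0⟩ ⟨l1, e1⟩ ⟨l2, e2⟩
        have hu0 : u.natDegree = 0 := by
          by_contra hne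
          have hdeg : u.degree ≠ 0 := by
            rw [degree_eq_natDegree hu]; exact_mod_cast hne
          obtain ⟨s, hs⟩ := IsAlgClosed.exists_root u hdeg
          apply hco s
          rw [e0, e1, e2]
          simp [hs.eq_zero]
        have : u.coeff e = 0 := coeff_eq_zero_of_natDegree_lt (by omega)
        apply hinf
        rw [e0, e1, e2]
        simp [this]
      by_cases a0 : A = 0
      · by_cases b0 : B = 0
        · have e0 : E ≠ 0 := by
            intro e0; apply hco 0; simp [a0, b0, e0]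
          exact key E e0 ⟨0, by simp [a0]⟩ ⟨0, by simp [b0]⟩ ⟨1, by simp⟩
        · exact key B b0 ⟨0, by simp [a0]⟩ ⟨1, by simp⟩ (prop_of_wronskian b0 z0)
      · exact key A a0 ⟨1, by simp⟩ (prop_of_wronskian a0 z2)
          (prop_of_wronskian a0 (by linear_combination -z1))
    obtain ⟨w, l0, l1, l2, hw, dw, hl, e0, e1, e2⟩ : ∃ (w : ℂ[X]) (l0 l1 l2 : ℂ), w ≠ 0 ∧
        w.natDegree ≤ 2 * e - 1 ∧ ¬ (l0 = 0 ∧ l1 = 0 ∧ l2 = 0) ∧
        g0 = C l0 * w ∧ g1 = C l1 * w ∧ g2 = C l2 * w := by
      by_cases a0 : g0 = 0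
      · by_cases b0 : g1 = 0
        · have e0 : g2 ≠ 0 := fun e0 => hg ⟨a0, b0, e0⟩
          exact ⟨g2, 0, 0, 1, e0, d2, by simp, by simp [a0], by simp [b0], by simp⟩
        · obtain ⟨l, hl⟩ := prop_of_wronskian b0 h0
          exact ⟨g1, 0, 1, l, b0, d1, by simp, by simp [a0], by simp, hl⟩
      · obtain ⟨l, hl⟩ := prop_of_wronskian a0 h2
        obtain ⟨l', hl'⟩ := prop_of_wronskian (v := g2) a0 (by linear_combination -h1)
        exact ⟨g0, 1, l, l', a0, d0, by simp, by simp, hl, hl'⟩
    have hlf : C l0 * A + C l1 * B + C l2 * E = 0 := by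
      have : w * (C l0 * A + C l1 * B + C l2 * E) = g0 * A + g1 * B + g2 * E := by
        rw [e0, e1, e2]; ring
      have h' : g0 * A + g1 * B + g2 * E = 0 := by simp only [hg0, hg1, hg2]; ring
      rw [h'] at this
      exact (mul_eq_zero.1 this).resolve_left hw
    have hdvd : ∀ a ∈ J, ∀ s : ℂ, ∀ t : ℕ, (X - C s) ^ t ∣ lin A B E a →
        (X - C s) ^ (t - 1) ∣ w := by
      intro a ha s t ht
      have k1 := dv a s t B ht
      have k2 := dv a s t E ht
      rw [← c1, e0, e2] at k1
      rw [← c2, e0, e1] at k2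
      have k1' : (X - C s) ^ (t - 1) ∣ C (a ^ 2 * l0 - l2) * w := by
        convert k1 using 1; simp only [map_sub, map_mul]; ring
      have k2' : (X - C s) ^ (t - 1) ∣ C (l1 - a * l0) * w := by
        convert k2 using 1; simp only [map_sub, map_mul]; ring
      by_cases z1 : a ^ 2 * l0 - l2 = 0
      · by_cases z2 : l1 - a * l0 = 0
        · exfalso
          have q2 : l2 = a ^ 2 * l0 := by linear_combination -z1
          have q1 : l1 = a * l0 := by linear_combination z2
          have q0 : l0 ≠ 0 := by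
            intro q0; apply hl; simp [q0, q1, q2]
          have : C l0 * lin A B E a = 0 := by
            rw [← hlf, q1, q2]; simp only [lin, map_mul]; ring
          rcases mul_eq_zero.1 this with h | h
          · exact q0 (C_eq_zero.1 h)
          · exact hP a ha h
        · exact (IsUnit.dvd_mul_left (isUnit_C.2 (IsUnit.mk0 _ z2))).1 k2'
      · exact (IsUnit.dvd_mul_left (isUnit_C.2 (IsUnit.mk0 _ z1))).1 k1'
    have node : ∀ a b s : ℂ, a ≠ b → (lin A B E a).eval s = 0 → (lin A B E b).eval s = 0 →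
        l0 * (a * b) - l1 * (a + b) + l2 = 0 := by
      intro a b s hab ha hb
      rw [ev] at ha hb
      have q1 : B.eval s + (a + b) * E.eval s = 0 := by
        have : (a - b) * (B.eval s + (a + b) * E.eval s) = 0 := by linear_combination ha - hb
        exact (mul_eq_zero.1 this).resolve_left (sub_ne_zero.2 hab)
      have q0 : A.eval s - a * b * E.eval s = 0 := by linear_combination ha - a * q1
      have q2 : E.eval s ≠ 0 := by
        intro q2
        apply hco s
        rw [q2] at q0 q1
        exact ⟨by simpa using q0, by simpa using q1, q2⟩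
      have q3 : l0 * A.eval s + l1 * B.eval s + l2 * E.eval s = 0 := by
        have := congrArg (eval s) hlf
        simpa using this
      have : E.eval s * (l0 * (a * b) - l1 * (a + b) + l2) = 0 := by
        linear_combination q3 - l0 * q0 - l1 * q1
      exact (mul_eq_zero.1 this).resolve_left q2
    obtain ⟨J2, hJ2, hJ2c, hJ2k⟩ : ∃ J2 ⊆ J1, 47 ≤ J2.card ∧ ∀ s : ℂ, ∀ J' ⊆ J2,
        (∀ a ∈ J', (lin A B E a).eval s = 0) → J'.card ≤ 1 := by
      by_cases hex : ∃ a ∈ J, ∃ b ∈ J, l0 * (a * b) - l1 * (a + b) + l2 = 0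
      · obtain ⟨a0, ha0, b0, hb0, hab0⟩ := hex
        refine ⟨J1.erase a0, Finset.erase_subset _ _, ?_, ?_⟩
        · have := Finset.pred_card_le_card_erase (s := J1) (a := a0)
          omega
        · intro s J' hJ' hz
          refine Finset.card_le_one.2 fun a ha b hb => ?_
          by_contra hab
          have ha' := Finset.mem_erase.1 (hJ' ha)
          have hb' := Finset.mem_erase.1 (hJ' hb)
          obtain ⟨q1, q2⟩ := hline l0 l1 l2 hl hlf a (hJ1J ha'.2) b (hJ1J hb'.2) a0 ha0 b0 hb0
            (node a b s hab (hz a ha) (hz b hb)) hab0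
          have : (a0 - a) * (a0 - b) = 0 := by linear_combination -a0 * q1 + q2
          rcases mul_eq_zero.1 this with h | h
          · exact ha'.1 (sub_eq_zero.1 h).symm
          · exact hb'.1 (sub_eq_zero.1 h).symm
      · refine ⟨J1, subset_rfl, by omega, ?_⟩
        intro s J' hJ' hz
        refine Finset.card_le_one.2 fun a ha b hb => ?_
        by_contra hab
        exact hex ⟨a, hJ1J (hJ' ha), b, hJ1J (hJ' hb), node a b s hab (hz a ha) (hz b hb)⟩
    obtain ⟨S, hS1, hS2⟩ := count J2 (lin A B E) e 1 w hw (fun a ha => hP a (hJ1J (hJ2 ha)))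
      (fun a ha => hdeg a (hJ2 ha)) (fun a ha => hdvd a (hJ1J (hJ2 ha))) hJ2k
    refine ⟨S, ?_, fun s hs => ?_⟩
    · have : 47 * e ≤ J2.card * e := Nat.mul_le_mul_right _ hJ2c
      omega
    · obtain ⟨a, ha, h⟩ := hS1 s hs
      exact ⟨a, hJ1J (hJ2 ha), h⟩
  · -- the curve is not a line
    have he2 : 2 ≤ e := by
      by_contra hlt
      have z : ∀ u : ℂ[X], u.natDegree ≤ e → derivative (derivative u) = 0 := by
        intro u hu
        have := iterate_derivative_eq_zero (p := u) (x := 2) (by omega)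
        simpa using this
      apply hW0
      rw [hW, z A hA, z B hB, z E hE]; simp
    set R : ℂ[X] := g0 * g2 - g1 ^ 2 with hR
    have hR0 : R ≠ 0 := by
      intro hz
      have hz' : derivative R = 0 := by rw [hz]; simp
      have hd : derivative R = g0 * derivative g2 + g2 * derivative g0 - 2 * g1 * derivative g1 := by
        simp only [hR, derivative_sub, derivative_mul, pow_two]; ring
      have : W ^ 2 * (B ^ 2 - 4 * A * E) = (derivative R) ^ 2 -
          4 * R * (derivative g0 * derivative g2 - derivative g1 ^ 2) := by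
        have : W ^ 2 * (B ^ 2 - 4 * A * E) = (W * B) ^ 2 - 4 * (W * A) * (W * E) := by ring
        rw [this, ← h0, ← h1, ← h2, hd, hR]; ring
      rw [hz', hz] at this
      simp only [ne_eq, OfNat.ofNat_ne_zero, not_false_eq_true, zero_pow, mul_zero, zero_mul,
        sub_self, mul_eq_zero, pow_eq_zero_iff] at this
      rcases this with h | h
      · exact hW0 h
      · exact hΔ h
    have dR : R.natDegree ≤ 4 * e - 2 := by
      refine (natDegree_sub_le _ _).trans (max_le ?_ ?_)
      · refine natDegree_mul_le.trans ?_; omega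
      · refine natDegree_pow_le.trans ?_; omega
    have hdvd : ∀ a ∈ J1, ∀ s : ℂ, ∀ t : ℕ, (X - C s) ^ t ∣ lin A B E a →
        (X - C s) ^ (t - 1) ∣ R := by
      intro a _ s t ht
      have k1 := dv a s t B ht
      have k2 := dv a s t E ht
      rw [← c1] at k1
      rw [← c2] at k2
      have : R = -g0 * (C (a ^ 2) * g0 - g2) - (g1 + C a * g0) * (g1 - C a * g0) := by
        simp only [hR, map_pow]; ring
      rw [this]
      exact dvd_sub (Dvd.dvd.mul_left k1 _) (Dvd.dvd.mul_left k2 _)
    obtain ⟨S, hS1, hS2⟩ := count J1 (lin A B E) e 2 R hR0 (fun a ha => hP a (hJ1J ha))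
      hdeg hdvd (fun s J' _ hz => two_roots J' _ _ _ (hco s) fun a ha => by
        rw [← ev]; exact hz a ha)
    refine ⟨S, ?_, fun s hs => ?_⟩
    · have : 48 * e ≤ J1.card * e := Nat.mul_le_mul_right _ hJ1c
      omega
    · obtain ⟨a, ha, h⟩ := hS1 s hs
      exact ⟨a, hJ1J ha, h⟩

/-- Countably many nonzero polynomials have a common non-zero. -/
theorem avoid : ∀ (n : ℕ) (G : ℕ → MvPolynomial (Fin n) ℂ), (∀ i, G i ≠ 0) →
    ∃ x : Fin n → ℂ, ∀ i, MvPolynomial.eval x (G i) ≠ 0 := by
  intro n
  induction n with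
  | zero =>
    intro G hG
    refine ⟨Fin.elim0, fun i => ?_⟩
    obtain ⟨c, hc⟩ := MvPolynomial.C_surjective (Fin 0) (G i)
    rw [← hc, MvPolynomial.eval_C]
    intro h
    apply hG i
    rw [← hc, h, map_zero]
  | succ n ih =>
    intro G hG
    have h1 : ∀ i, (MvPolynomial.finSuccEquiv ℂ n (G i)).leadingCoeff ≠ 0 := by
      intro i
      rw [Ne, leadingCoeff_eq_zero, EmbeddingLike.map_eq_zero_iff]
      exact hG i
    obtain ⟨y, hy⟩ := ih _ h1
    have h2 : ∀ i, (MvPolynomial.finSuccEquiv ℂ n (G i)).map (MvPolynomial.eval y) ≠ 0 := by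
      intro i h
      apply hy i
      have := congrArg (fun p => p.coeff (MvPolynomial.finSuccEquiv ℂ n (G i)).natDegree) h
      simpa using this
    have h3 : (⋃ i, {z : ℂ | IsRoot
        ((MvPolynomial.finSuccEquiv ℂ n (G i)).map (MvPolynomial.eval y)) z}).Countable :=
      Set.countable_iUnion fun i => (finite_setOfPred_isRoot (h2 i)).countable
    have h4 : ∃ z : ℂ, z ∉ ⋃ i, {z : ℂ | IsRoot
        ((MvPolynomial.finSuccEquiv ℂ n (G i)).map (MvPolynomial.eval y)) z} := by
      by_contra hcon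
      push Not at hcon
      exact not_countable_complex (h3.mono fun z _ => hcon z)
    obtain ⟨z, hz⟩ := h4
    refine ⟨Fin.cons z y, fun i => ?_⟩
    rw [MvPolynomial.eval_eq_eval_mv_eval']
    intro h
    exact hz (Set.mem_iUnion.2 ⟨i, h⟩)

end Pool.Agent.MP_4be736_ag.H94
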