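import Mathlib
import Pool.Agent.MP_4be736_ag.H94.Poly

/-!
Binary forms versus univariate polynomials.
-/

open MvPolynomial

namespace Pool.Agent.MP_4be736_ag.H94

/-- dehomogenisation `q(X, 1)` -/
noncomputable def deh (q : MvPolynomial (Fin 2) ℂ) : Polynomial ℂ :=
  aeval ![Polynomial.X, 1] q

theorem eval_smul_hom {k : ℕ} {q : MvPolynomial (Fin k) ℂ} {e : ℕ} (hq : q.IsHomogeneous e)
    (κ : ℂ) (v : Fin k → ℂ) : eval (κ • v) q = κ ^ e * eval v q := by
  rw [eval_eq', eval_eq', Finset.mul_sum]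
  refine Finset.sum_congr rfl fun m hm => ?_
  have h : ∑ i, m i = e := by
    have := hq (mem_support_iff.1 hm)
    simpa [Finsupp.weight_apply, Finsupp.sum_fintype] using this
  simp only [Pi.smul_apply, smul_eq_mul, mul_pow, Finset.prod_mul_distrib,
    Finset.prod_pow_eq_pow_sum, h]
  ring

theorem deh_natDegree {q : MvPolynomial (Fin 2) ℂ} {e : ℕ} (hq : q.IsHomogeneous e) :
    (deh q).natDegree ≤ e := by
  have := aeval_natDegree_le (n := 1) q hq.totalDegree_le ![Polynomial.X, 1] (by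
    intro i; fin_cases i <;> simp)
  simpa [deh] using this

theorem hom_deh {q : MvPolynomial (Fin 2) ℂ} {e : ℕ} (hq : q.IsHomogeneous e) :
    (deh q).homogenize e = q := Polynomial.homogenize_eq_of_isHomogeneous hq rfl

theorem deh_eval (q : MvPolynomial (Fin 2) ℂ) (s : ℂ) : (deh q).eval s = eval ![s, 1] q := by
  induction q using MvPolynomial.induction_on with
  | C a => simp [deh]
  | add p q hp hq => simp only [deh, map_add, Polynomial.eval_add] at *; rw [hp, hq]
  | mul_X p i hp =>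
    simp only [deh, map_mul, Polynomial.eval_mul, aeval_X, eval_X] at *
    rw [hp]
    fin_cases i <;> simp

theorem deh_coeff {q : MvPolynomial (Fin 2) ℂ} {e : ℕ} (hq : q.IsHomogeneous e) :
    (deh q).coeff e = eval ![1, 0] q := by
  conv_rhs => rw [← hom_deh hq]
  rw [Polynomial.homogenize, map_sum, Finset.sum_eq_single (e, 0)]
  · simp [eval_monomial, Finsupp.prod_fintype]
  · rintro ⟨a, b⟩ hab hne
    have hb : b ≠ 0 := by
      rintro rfl
      apply hne
      simpa using hab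
    simp [eval_monomial, Finsupp.prod_fintype, hb]
  · simp

theorem deh_eq_zero {q : MvPolynomial (Fin 2) ℂ} {e : ℕ} (hq : q.IsHomogeneous e)
    (h : deh q = 0) : q = 0 := by
  rw [← hom_deh hq, h, Polynomial.homogenize_zero]

/-- the linear form vanishing at `v` divides a form vanishing at `v = κ (s, 1)` -/
theorem lin_dvd {q : MvPolynomial (Fin 2) ℂ} {e : ℕ} (he : 1 ≤ e) (hq : q.IsHomogeneous e)
    (s κ : ℂ) (hκ : κ ≠ 0) (h : (deh q).eval s = 0) :
    (C κ * X 0 - C (κ * s) * X 1 : MvPolynomial (Fin 2) ℂ) ∣ q := by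
  obtain ⟨r, hr⟩ := Polynomial.dvd_iff_isRoot.2 h
  by_cases hr0 : r = 0
  · rw [hr0, mul_zero] at hr
    rw [deh_eq_zero hq hr]; exact dvd_zero _
  have hd : r.natDegree ≤ e - 1 := by
    have h1 := deh_natDegree hq
    rw [hr, Polynomial.natDegree_mul (Polynomial.X_sub_C_ne_zero s) hr0,
      Polynomial.natDegree_X_sub_C] at h1
    omega
  have h2 := hom_deh hq
  obtain ⟨e', rfl⟩ : ∃ e', e = 1 + e' := ⟨e - 1, by omega⟩
  rw [hr, Polynomial.homogenize_mul _ _ (Polynomial.natDegree_X_sub_C (x := s)).le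
    (by simpa using hd)] at h2
  refine ⟨C κ⁻¹ * r.homogenize e', ?_⟩
  rw [← h2]
  have : (C κ * C κ⁻¹ : MvPolynomial (Fin 2) ℂ) = 1 := by
    rw [← map_mul, mul_inv_cancel₀ hκ, map_one]
  simp only [Polynomial.homogenize_sub, Polynomial.homogenize_C, map_mul, pow_one]
  rw [Polynomial.homogenize_X one_ne_zero]
  simp only [Nat.sub_self, pow_zero, mul_one]
  linear_combination (-(X 0 - C s * X 1) * r.homogenize e') * this

theorem mult_eq_one {q : MvPolynomial (Fin 2) ℂ} {e : ℕ} (he : 1 ≤ e) (hq : q.IsHomogeneous e)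
    (s κ : ℂ) (hκ : κ ≠ 0) (h : (deh q).rootMultiplicity s = 1) :
    multiplicity (C κ * X 0 - C (κ * s) * X 1 : MvPolynomial (Fin 2) ℂ) q = 1 := by
  have h0 : deh q ≠ 0 := by
    intro h0; rw [h0] at h; simp at h
  apply multiplicity_eq_of_dvd_of_not_dvd
  · rw [pow_one]
    exact lin_dvd he hq s κ hκ ((Polynomial.rootMultiplicity_pos h0).1 (by omega))
  · intro hd
    have h1 := map_dvd (aeval ![Polynomial.X, 1] : MvPolynomial (Fin 2) ℂ →ₐ[ℂ] Polynomial ℂ) hd
    have h2 : (Polynomial.X - Polynomial.C s) ^ 2 ∣ deh q := by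
      refine Dvd.dvd.trans ⟨Polynomial.C κ ^ 2, ?_⟩ h1
      simp
      ring
    have := (Polynomial.le_rootMultiplicity_iff h0).2 h2
    omega

/-- the line with parameter `a` -/
noncomputable def ln (a : ℂ) : MvPolynomial (Fin 3) ℂ := X 0 + C a * X 1 + C (a ^ 2) * X 2

theorem ln_hom (a : ℂ) : (ln a).IsHomogeneous 1 :=
  ((isHomogeneous_X _ _).add (isHomogeneous_C_mul_X _ _)).add (isHomogeneous_C_mul_X _ _)

theorem ln_eval (a : ℂ) (x : Fin 3 → ℂ) : eval x (ln a) = x 0 + a * x 1 + a ^ 2 * x 2 := by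
  simp [ln]

theorem ln_irred (a : ℂ) : Irreducible (ln a) := by
  have hc : coeff (Finsupp.single 0 1) (ln a) = 1 := by
    simp [ln, coeff_X, Finsupp.single_eq_single_iff, -map_pow, -C_pow]
  have h0 : ln a ≠ 0 := by
    intro h; rw [h] at hc; simp at hc
  apply irreducible_of_totalDegree_eq_one ((ln_hom a).totalDegree h0)
  intro x hx
  have := hx (Finsupp.single 0 1)
  rw [hc] at this
  exact isUnit_of_dvd_one this

theorem ln_pderiv (a : ℂ) (x : Fin 3 → ℂ) (i : Fin 3) :
    eval x (pderiv i (ln a)) = a ^ (i : ℕ) := by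
  fin_cases i <;> simp [ln, -map_pow, -C_pow]

theorem ln_aeval (a : ℂ) (F : Fin 3 → MvPolynomial (Fin 2) ℂ) :
    aeval F (ln a) = F 0 + C a * F 1 + C (a ^ 2) * F 2 := by
  simp [ln]

theorem ln_deh (a : ℂ) (F : Fin 3 → MvPolynomial (Fin 2) ℂ) :
    deh (aeval F (ln a)) = lin (deh (F 0)) (deh (F 1)) (deh (F 2)) a := by
  rw [ln_aeval]
  simp [deh, lin]

/-- A point avoiding countably many hypersurfaces, the conic and all integral lines. -/
theorem good_point (G : ℕ → MvPolynomial (Fin 3) ℂ) (hG : ∀ i, G i ≠ 0) :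
    ∃ x : Fin 3 → ℂ, (∀ i, eval x (G i) ≠ 0) ∧ x 1 ^ 2 - 4 * x 0 * x 2 ≠ 0 ∧
      ∀ p q r : ℤ, p * x 0 + q * x 1 + r * x 2 = 0 → p = 0 ∧ q = 0 ∧ r = 0 := by
  classical
  let H : ℕ ⊕ Option (ℤ × ℤ × ℤ) → MvPolynomial (Fin 3) ℂ := fun z =>
    match z with
    | Sum.inl i => G i
    | Sum.inr none => X 1 ^ 2 - 4 * X 0 * X 2
    | Sum.inr (some (p, q, r)) =>
        if p = 0 ∧ q = 0 ∧ r = 0 then 1 else C (p : ℂ) * X 0 + C (q : ℂ) * X 1 + C (r : ℂ) * X 2
  have hH : ∀ z, H z ≠ 0 := by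
    rintro (i | _ | ⟨p, q, r⟩)
    · exact hG i
    · intro h
      have := congrArg (eval ![0, 1, 0]) h
      simp [H] at this
    · simp only [H]
      split_ifs with h
      · exact one_ne_zero
      · intro h'
        apply h
        have h0 := congrArg (eval ![1, 0, 0]) h'
        have h1 := congrArg (eval ![0, 1, 0]) h'
        have h2 := congrArg (eval ![0, 0, 1]) h'
        simp at h0 h1 h2
        exact ⟨h0, h1, h2⟩
  obtain ⟨f, hf⟩ := exists_surjective_nat (ℕ ⊕ Option (ℤ × ℤ × ℤ))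
  obtain ⟨x, hx⟩ := avoid 3 (fun i => H (f i)) fun i => hH _
  have hx' : ∀ z, eval x (H z) ≠ 0 := by
    intro z; obtain ⟨i, rfl⟩ := hf z; exact hx i
  refine ⟨x, fun i => hx' (Sum.inl i), ?_, fun p q r h => ?_⟩
  · simpa [H] using hx' (Sum.inr none)
  · by_contra hne
    have := hx' (Sum.inr (some (p, q, r)))
    simp only [H, if_neg hne] at this
    apply this
    simpa using h

/-- Key statement: a curve through a good point meets the fifty lines transversally
at 34 points at least. -/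
theorem key (F : Fin 3 → MvPolynomial (Fin 2) ℂ) (e : ℕ) (he : 1 ≤ e)
    (hF : ∀ i, (F i).IsHomogeneous e)
    (hne : ∀ v : Fin 2 → ℂ, v ≠ 0 → (fun i => eval v (F i)) ≠ 0)
    (hD : ∀ j : Fin 50, aeval F (ln (j : ℕ)) ≠ 0)
    (x : Fin 3 → ℂ) (v : Fin 2 → ℂ) (κ : ℂ) (hx : ∀ i, x i = κ * eval v (F i))
    (hq : x 1 ^ 2 - 4 * x 0 * x 2 ≠ 0)
    (hl : ∀ p q r : ℤ, p * x 0 + q * x 1 + r * x 2 = 0 → p = 0 ∧ q = 0 ∧ r = 0) :
    ∃ S : Finset ℂ, 34 ≤ S.card ∧ ∀ s ∈ S, ∃ j : Fin 50,
      (deh (aeval F (ln (j : ℕ)))).rootMultiplicity s = 1 := by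
  classical
  have hz : ∀ v : Fin 2 → ℂ, v ≠ 0 →
      ¬ (eval v (F 0) = 0 ∧ eval v (F 1) = 0 ∧ eval v (F 2) = 0) := by
    rintro v hv ⟨h0, h1, h2⟩
    apply hne v hv
    funext i
    fin_cases i
    exacts [h0, h1, h2]
  have hlnh : ∀ a : ℂ, (aeval F (ln a)).IsHomogeneous e := by
    intro a
    simpa using (ln_hom a).aeval F hF
  set J : Finset ℂ := Finset.univ.image (fun j : Fin 50 => ((j : ℕ) : ℂ)) with hJ
  have hJc : J.card = 50 := by
    rw [hJ, Finset.card_image_of_injective _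
      (fun a b h => Fin.ext (Nat.cast_injective (R := ℂ) h))]
    simp
  obtain ⟨S, hS1, hS2⟩ := main (deh (F 0)) (deh (F 1)) (deh (F 2)) e he
    (deh_natDegree (hF 0)) (deh_natDegree (hF 1)) (deh_natDegree (hF 2))
    (by
      intro s
      rw [deh_eval, deh_eval, deh_eval]
      exact hz _ (by intro h; simpa using congrFun h 1))
    (by
      rw [deh_coeff (hF 0), deh_coeff (hF 1), deh_coeff (hF 2)]
      exact hz _ (by intro h; simpa using congrFun h 0))
    (by
      intro h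
      have hh : (F 1 * F 1 - C 4 * (F 0 * F 2)).IsHomogeneous (e + e) :=
        ((hF 1).mul (hF 1)).sub (((hF 0).mul (hF 2)).C_mul 4)
      have h1 : deh (F 1 * F 1 - C 4 * (F 0 * F 2)) = 0 := by
        rw [← h]
        simp only [deh, map_sub, map_mul, map_ofNat]
        ring
      have h2 := congrArg (eval v) (deh_eq_zero hh h1)
      simp only [map_sub, map_mul, eval_C, map_zero] at h2
      apply hq
      rw [hx 0, hx 1, hx 2]
      linear_combination κ ^ 2 * h2)
    J hJc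
    (by
      intro a ha
      obtain ⟨j, -, rfl⟩ := Finset.mem_image.1 ha
      rw [← ln_deh]
      exact fun h => hD j (deh_eq_zero (hlnh _) h))
    (by
      intro l0 l1 l2 hl0 h a ha b hb c hc d hd h1 h2
      obtain ⟨a, -, rfl⟩ := Finset.mem_image.1 ha
      obtain ⟨b, -, rfl⟩ := Finset.mem_image.1 hb
      obtain ⟨c, -, rfl⟩ := Finset.mem_image.1 hc
      obtain ⟨d, -, rfl⟩ := Finset.mem_image.1 hd
      generalize (a : ℕ) = a at *
      generalize (b : ℕ) = b at *
      generalize (c : ℕ) = c at *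
      generalize (d : ℕ) = d at *
      have hh : (C l0 * F 0 + C l1 * F 1 + C l2 * F 2).IsHomogeneous e :=
        (((hF 0).C_mul l0).add ((hF 1).C_mul l1)).add ((hF 2).C_mul l2)
      have h3 : deh (C l0 * F 0 + C l1 * F 1 + C l2 * F 2) = 0 := by
        rw [← h]
        simp [deh]
      have h4 := congrArg (eval v) (deh_eq_zero hh h3)
      simp only [map_add, map_mul, eval_C, map_zero] at h4
      have h5 : l0 * x 0 + l1 * x 1 + l2 * x 2 = 0 := by
        rw [hx 0, hx 1, hx 2]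
        linear_combination κ * h4
      set D : ℂ := (((c : ℂ) + d) - (a + b)) * x 0 + ((c : ℂ) * d - a * b) * x 1 +
        (((a : ℂ) + b) * (c * d) - (c + d) * (a * b)) * x 2 with hDdef
      have hD0 : D = 0 := by
        by_contra hD0
        apply hl0
        have k0 : l0 * D = 0 := by
          rw [hDdef]
          linear_combination (((c : ℂ) + d) - (a + b)) * h5 +
            (-x 1 - ((c : ℂ) + d) * x 2) * h1 + (x 1 + ((a : ℂ) + b) * x 2) * h2
        have k1 : l1 * D = 0 := by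
          rw [hDdef]
          linear_combination ((c : ℂ) * d - a * b) * h5 +
            (x 0 - ((c : ℂ) * d) * x 2) * h1 + (-x 0 + ((a : ℂ) * b) * x 2) * h2
        have k2 : l2 * D = 0 := by
          rw [hDdef]
          linear_combination (((a : ℂ) + b) * (c * d) - (c + d) * (a * b)) * h5 +
            (((c : ℂ) + d) * x 0 + ((c : ℂ) * d) * x 1) * h1 +
            (-((a : ℂ) + b) * x 0 - ((a : ℂ) * b) * x 1) * h2
        exact ⟨(mul_eq_zero.1 k0).resolve_right hD0, (mul_eq_zero.1 k1).resolve_right hD0,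
          (mul_eq_zero.1 k2).resolve_right hD0⟩
      obtain ⟨q1, q2, -⟩ := hl (((c : ℤ) + d) - (a + b)) ((c : ℤ) * d - a * b)
        (((a : ℤ) + b) * (c * d) - (c + d) * (a * b)) (by push_cast; rw [← hD0, hDdef])
      have q1' : (((c : ℂ) + d) - (a + b)) = 0 := by exact_mod_cast q1
      have q2' : ((c : ℂ) * d - a * b) = 0 := by exact_mod_cast q2
      exact ⟨by linear_combination -q1', by linear_combination -q2'⟩)
  refine ⟨S, hS1, fun s hs => ?_⟩
  obtain ⟨a, ha, h⟩ := hS2 s hs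
  obtain ⟨j, -, rfl⟩ := Finset.mem_image.1 ha
  exact ⟨j, by rw [ln_deh]; exact h⟩

end Pool.Agent.MP_4be736_ag.H94
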